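import Mathlib
import Pool.Agent.H38.BR.S8.H646.Defs

namespace Pool.Agent.H646.Sv2M
open Finset



/-- primes up to `N` -/
abbrev PP (N : ℕ) : Finset ℕ := (Finset.Icc 1 N).filter Nat.Prime

lemma log_factorial_eq (N : ℕ) :
    Real.log (N.factorial : ℝ) = ∑ p ∈ PP N, (N.factorial.factorization p : ℝ) * Real.log p := by
  rw [Real.log_nat_eq_sum_factorization, Finsupp.sum]
  have h1 : N.factorial.factorization.support ⊆ PP N := by
    intro p hp
    rw [Nat.support_factorization, Nat.mem_primeFactors] at hp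
    rw [Finset.mem_filter, Finset.mem_Icc]
    exact ⟨⟨hp.1.one_lt.le, (hp.1.dvd_factorial).1 hp.2.1⟩, hp.1⟩
  refine Finset.sum_subset h1 fun p _ hp => ?_
  rw [Finsupp.notMem_support_iff] at hp
  rw [hp]; simp

lemma sum_small_bound : ∃ C : ℝ, 0 ≤ C ∧ ∀ N : ℕ, ∑ p ∈ PP N, Real.log p / (p * (p - 1)) ≤ C := by
  have hs : Summable (fun n : ℕ => 4 / (n : ℝ) ^ (3 / 2 : ℝ)) := by
    have := Real.summable_nat_rpow_inv (p := (3 / 2 : ℝ)).2 (by norm_num)
    have h2 := this.mul_left 4
    exact h2.congr fun n => (div_eq_mul_inv _ _).symm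
  refine ⟨∑' n : ℕ, 4 / (n : ℝ) ^ (3 / 2 : ℝ), tsum_nonneg fun n => by positivity, fun N => ?_⟩
  refine le_trans ?_ (hs.sum_le_tsum (PP N) fun n _ => by positivity)
  refine Finset.sum_le_sum fun p hp => ?_
  rw [Finset.mem_filter] at hp
  have h2 : (2 : ℝ) ≤ p := by exact_mod_cast hp.2.two_le
  have hp0 : (0 : ℝ) < p := by linarith
  have hlog : Real.log p ≤ 2 * (p : ℝ) ^ (1 / 2 : ℝ) := by
    have := Real.log_le_rpow_div hp0.le (ε := 1 / 2) (by norm_num)
    linarith
  rw [div_le_div_iff₀ (by nlinarith) (by positivity)]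
  have h3 : (p : ℝ) ^ (1 / 2 : ℝ) * (p : ℝ) ^ (3 / 2 : ℝ) = p ^ 2 := by
    rw [← Real.rpow_add hp0]; norm_num
  have h4 : 0 < (p : ℝ) ^ (3 / 2 : ℝ) := by positivity
  calc Real.log p * (p : ℝ) ^ (3 / 2 : ℝ) ≤ 2 * (p : ℝ) ^ (1 / 2 : ℝ) * (p : ℝ) ^ (3 / 2 : ℝ) :=
        mul_le_mul_of_nonneg_right hlog h4.le
    _ = 2 * p ^ 2 := by rw [mul_assoc, h3]
    _ ≤ 4 * (p * (p - 1)) := by nlinarith

lemma theta_le (N : ℕ) : ∑ p ∈ PP N, Real.log p ≤ 2 * N := by
  have h := Chebyshev.theta_le_log4_mul_x (x := (N : ℝ)) (by positivity)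
  have h2 : Chebyshev.theta (N : ℝ) = ∑ p ∈ PP N, Real.log p := by
    rw [Chebyshev.theta, Nat.floor_natCast]
    rfl
  rw [h2] at h
  have h3 : Real.log 4 ≤ 2 := by
    have : Real.log 4 = 2 * Real.log 2 := by
      rw [show (4 : ℝ) = 2 ^ 2 by norm_num, Real.log_pow]; norm_num
    have := Real.log_two_lt_d9
    linarith
  have : (0 : ℝ) ≤ N := by positivity
  nlinarith

theorem mertens_log : ∃ C : ℝ, ∀ N : ℕ, 1 ≤ N →
    |∑ p ∈ (Finset.Icc 1 N).filter Nat.Prime, Real.log p / p - Real.log N| ≤ C := by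
  obtain ⟨C, hC0, hC⟩ := sum_small_bound
  refine ⟨C + 2, fun N hN => ?_⟩
  have hN' : (0 : ℝ) < N := by exact_mod_cast hN
  have hN1 : (1 : ℝ) ≤ N := by exact_mod_cast hN
  have hfac := log_factorial_eq N
  set P := ∑ p ∈ PP N, Real.log p / p with hP
  -- upper bound for the factorial
  have hup : Real.log (N.factorial : ℝ) ≤ N * Real.log N := by
    rw [← Real.log_pow]
    apply Real.log_le_log
    · exact_mod_cast N.factorial_pos
    · exact_mod_cast N.factorial_le_pow
  have hlo : N * Real.log N - N ≤ Real.log (N.factorial : ℝ) := by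
    have h1 := Stirling.le_log_factorial_stirling (n := N) (by omega)
    have h2 : 0 ≤ Real.log N := Real.log_nonneg hN1
    have h3 : 0 ≤ Real.log (2 * Real.pi) := Real.log_nonneg (by linarith [Real.pi_gt_three])
    linarith
  -- lower bound for valuations
  have h1 : (N : ℝ) * P - 2 * N ≤ Real.log (N.factorial : ℝ) := by
    rw [hfac]
    have h2 := theta_le N
    have h3 : (N : ℝ) * P - ∑ p ∈ PP N, Real.log p ≤
        ∑ p ∈ PP N, (N.factorial.factorization p : ℝ) * Real.log p := by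
      rw [hP, Finset.mul_sum, ← Finset.sum_sub_distrib]
      refine Finset.sum_le_sum fun p hp => ?_
      rw [Finset.mem_filter] at hp
      have hp0 : (0 : ℝ) < p := by exact_mod_cast hp.2.pos
      have hlog : 0 ≤ Real.log p := Real.log_nonneg (by exact_mod_cast hp.2.one_lt.le)
      have h4 : N / p ≤ N.factorial.factorization p := by
        rw [Nat.factorization_factorial hp.2 (Nat.lt_succ_self (Nat.log p N))]
        by_cases h5 : p ≤ N
        · have h6 : 1 ≤ Nat.log p N := by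
            have := Nat.log_pos hp.2.one_lt h5
            omega
          have h7 : N / p = N / p ^ 1 := by rw [pow_one]
          rw [h7]
          exact Finset.single_le_sum (f := fun i => N / p ^ i) (fun i _ => Nat.zero_le _)
            (Finset.mem_Ico.2 ⟨le_rfl, by omega⟩)
        · rw [Nat.div_eq_of_lt (by omega)]; exact Nat.zero_le _
      have h5 : (N : ℝ) / p - 1 ≤ N.factorial.factorization p := by
        have h6 : (N : ℝ) / p < ((N / p : ℕ) : ℝ) + 1 := by
          rw [← Nat.floor_div_eq_div (K := ℝ)]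
          exact Nat.lt_floor_add_one _
        have h7 : ((N / p : ℕ) : ℝ) ≤ N.factorial.factorization p := by exact_mod_cast h4
        linarith
      calc (N : ℝ) * (Real.log p / p) - Real.log p = (N / p - 1) * Real.log p := by ring
        _ ≤ _ := mul_le_mul_of_nonneg_right h5 hlog
    linarith
  -- upper bound for valuations
  have h2 : Real.log (N.factorial : ℝ) ≤ N * P + N * C := by
    rw [hfac]
    have h3 : ∑ p ∈ PP N, (N.factorial.factorization p : ℝ) * Real.log p ≤
        ∑ p ∈ PP N, ((N : ℝ) * (Real.log p / p) + N * (Real.log p / (p * (p - 1)))) := by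
      refine Finset.sum_le_sum fun p hp => ?_
      rw [Finset.mem_filter] at hp
      have h2' : (2 : ℝ) ≤ p := by exact_mod_cast hp.2.two_le
      have hlog : 0 ≤ Real.log p := Real.log_nonneg (by linarith)
      have h4 : (N.factorial.factorization p : ℝ) ≤ N / (p - 1) := by
        have h5 := Nat.factorization_factorial_le_div_pred hp.2 N
        have h6 : (N.factorial.factorization p : ℝ) ≤ ((N / (p - 1) : ℕ) : ℝ) := by exact_mod_cast h5
        refine h6.trans ?_
        have h7 : ((p - 1 : ℕ) : ℝ) = (p : ℝ) - 1 := by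
          rw [Nat.cast_sub hp.2.one_lt.le]; norm_num
        rw [← h7]
        exact Nat.cast_div_le
      have h8 : (N : ℝ) * (Real.log p / p) + N * (Real.log p / (p * (p - 1))) =
          N / (p - 1) * Real.log p := by
        have : (p : ℝ) ≠ 0 := by linarith
        have : (p : ℝ) - 1 ≠ 0 := by linarith
        field_simp
        ring
      rw [h8]
      exact mul_le_mul_of_nonneg_right h4 hlog
    refine h3.trans ?_
    rw [Finset.sum_add_distrib, ← Finset.mul_sum, ← Finset.mul_sum]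
    have := hC N
    have := mul_le_mul_of_nonneg_left this hN'.le
    linarith
  change |P - Real.log N| ≤ C + 2
  rw [abs_le]
  constructor
  · have h3 : (N : ℝ) * (Real.log N - 1) ≤ N * (P + C) := by linarith
    have := le_of_mul_le_mul_left h3 hN'
    linarith
  · have h3 : (N : ℝ) * (P - 2) ≤ N * Real.log N := by linarith
    have := le_of_mul_le_mul_left h3 hN'
    linarith


theorem J14_exp (t : ℝ) (h0 : 0 ≤ t) (h1 : t ≤ 1) : Real.exp t - 1 ≤ 2 * t := by
  have hconv := convexOn_exp.2 (Set.mem_univ (0 : ℝ)) (Set.mem_univ (1 : ℝ))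
    (sub_nonneg.2 h1) h0 (by ring)
  simp only [smul_eq_mul, mul_zero, mul_one, zero_add, Real.exp_zero] at hconv
  have he := Real.exp_one_lt_d9
  nlinarith

theorem J14_divisors (A : Finset ℕ) (hA : ∀ p ∈ A, p.Prime) :
    (∏ p ∈ A, p).divisors = A.powerset.image (fun S => ∏ p ∈ S, p) := by
  classical
  ext l
  rw [Nat.mem_divisors, Finset.mem_image]
  have hne : (∏ p ∈ A, p) ≠ 0 := Finset.prod_ne_zero_iff.2 fun p hp => (hA p hp).ne_zero
  have hpf : (∏ p ∈ A, p).primeFactors = A := Nat.primeFactors_prod hA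
  have hsq : Squarefree (∏ p ∈ A, p) := by
    refine Finset.squarefree_prod_of_pairwise_isCoprime (fun p hp q hq hpq => ?_)
      fun p hp => (hA p hp).prime.squarefree
    show IsRelPrime p q
    rw [← Nat.coprime_iff_isRelPrime]
    exact (Nat.coprime_primes (hA p hp) (hA q hq)).2 hpq
  constructor
  · rintro ⟨hl, _⟩
    refine ⟨l.primeFactors, ?_, ?_⟩
    · rw [Finset.mem_powerset, ← hpf]
      exact Nat.primeFactors_mono hl hne
    · exact Nat.prod_primeFactors_of_squarefree (hsq.squarefree_of_dvd hl)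
  · rintro ⟨S, hS, rfl⟩
    rw [Finset.mem_powerset] at hS
    exact ⟨Finset.prod_dvd_prod_of_subset _ _ _ hS, hne⟩

theorem J14_sum (A : Finset ℕ) (hA : ∀ p ∈ A, p.Prime) (z : ℕ) (w : ℕ → ℝ) :
    ∑ l ∈ (∏ p ∈ A, p).divisors with l ≤ z, ∏ p ∈ l.primeFactors, w p =
      ∑ S ∈ A.powerset with (∏ p ∈ S, p) ≤ z, ∏ p ∈ S, w p := by
  classical
  rw [J14_divisors A hA, Finset.sum_filter, Finset.sum_filter, Finset.sum_image]
  · refine Finset.sum_congr rfl fun S hS => ?_
    rw [Finset.mem_powerset] at hS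
    rw [Nat.primeFactors_prod fun p hp => hA p (hS hp)]
  · intro S hS S' hS' h
    have hS2 := Finset.mem_powerset.1 hS
    have hS2' := Finset.mem_powerset.1 hS'
    rw [← Nat.primeFactors_prod fun p hp => hA p (hS2 hp),
      ← Nat.primeFactors_prod fun p hp => hA p (hS2' hp)]
    exact congrArg Nat.primeFactors h

theorem J14_tail (A : Finset ℕ) (hA : ∀ p ∈ A, p.Prime) (z : ℕ) (hz : 1 ≤ z) (w : ℕ → ℝ)
    (hw : ∀ p ∈ A, 0 ≤ w p) (σ : ℝ) (hσ : 0 ≤ σ) :
    ∑ S ∈ A.powerset with ¬ (∏ p ∈ S, p) ≤ z, ∏ p ∈ S, w p ≤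
      (z : ℝ) ^ (-σ) * ∏ p ∈ A, (1 + w p * (p : ℝ) ^ σ) := by
  classical
  have hz0 : (0 : ℝ) < z := by exact_mod_cast hz
  rw [Finset.prod_one_add, Finset.mul_sum]
  calc ∑ S ∈ A.powerset with ¬ (∏ p ∈ S, p) ≤ z, ∏ p ∈ S, w p
      ≤ ∑ S ∈ A.powerset with ¬ (∏ p ∈ S, p) ≤ z,
          (z : ℝ) ^ (-σ) * ∏ p ∈ S, (w p * (p : ℝ) ^ σ) := by
        refine Finset.sum_le_sum fun S hS => ?_
        rw [Finset.mem_filter, Finset.mem_powerset] at hS
        have hprod : ∏ p ∈ S, (w p * (p : ℝ) ^ σ) =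
            (∏ p ∈ S, w p) * ((∏ p ∈ S, p : ℕ) : ℝ) ^ σ := by
          rw [Finset.prod_mul_distrib]
          congr 1
          push_cast
          rw [Real.finsetProd_rpow]
          intro p _
          positivity
        have hw0 : 0 ≤ ∏ p ∈ S, w p := Finset.prod_nonneg fun p hp => hw p (hS.1 hp)
        have hlt : (z : ℝ) ≤ ((∏ p ∈ S, p : ℕ) : ℝ) := by
          exact_mod_cast (not_le.1 hS.2).le
        have h1 : 1 ≤ (z : ℝ) ^ (-σ) * ((∏ p ∈ S, p : ℕ) : ℝ) ^ σ := by
          rw [Real.rpow_neg hz0.le, inv_mul_eq_div, one_le_div (by positivity)]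
          exact Real.rpow_le_rpow hz0.le hlt hσ
        rw [hprod]
        calc ∏ p ∈ S, w p = (∏ p ∈ S, w p) * 1 := (mul_one _).symm
          _ ≤ (∏ p ∈ S, w p) * ((z : ℝ) ^ (-σ) * ((∏ p ∈ S, p : ℕ) : ℝ) ^ σ) := by gcongr
          _ = _ := by ring
    _ ≤ ∑ S ∈ A.powerset, (z : ℝ) ^ (-σ) * ∏ p ∈ S, (w p * (p : ℝ) ^ σ) := by
        refine Finset.sum_le_sum_of_subset_of_nonneg (Finset.filter_subset _ _) fun S hS _ => ?_
        rw [Finset.mem_powerset] at hS
        have : 0 ≤ ∏ p ∈ S, (w p * (p : ℝ) ^ σ) :=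
          Finset.prod_nonneg fun p hp => mul_nonneg (hw p (hS hp)) (by positivity)
        positivity

/-- Rankin's trick: the truncated Selberg sum is at least half of the full Euler product. -/
theorem rankin_lower (k : ℕ) (hk : 1 ≤ k) :
    ∃ E : ℕ, 1 ≤ E ∧ ∃ y₀ : ℕ, ∀ y : ℕ, y₀ ≤ y → ∀ (rho : ℕ → ℕ), (∀ p ∈ PR k y, 1 ≤ rho p ∧ rho p ≤ k) →
      ∀ z : ℕ, y ^ E ≤ z →
      (1 / 2 : ℝ) * (∏ p ∈ PR k y, (1 - (rho p : ℝ) / p)⁻¹) ≤
        ∑ l ∈ (∏ p ∈ PR k y, p).divisors with l ≤ z,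
          ∏ p ∈ l.primeFactors, (rho p : ℝ) / (p - rho p) := by
  classical
  obtain ⟨C0, hC0⟩ := mertens_log
  set C : ℝ := |C0| with hC
  have hCn : 0 ≤ C := abs_nonneg _
  have hk1 : (1 : ℝ) ≤ k := by exact_mod_cast hk
  set E : ℕ := ⌈2 * (k : ℝ) * (k + 1) * (1 + C)⌉₊ + 1 with hE
  have hEle : 2 * (k : ℝ) * (k + 1) * (1 + C) + 1 ≤ E := by
    rw [hE]
    push_cast
    linarith [Nat.le_ceil (2 * (k : ℝ) * (k + 1) * (1 + C))]
  refine ⟨E, by omega, 3, ?_⟩
  intro y hy rho hrho z hz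
  set A := PR k y with hA
  have hAm : ∀ p ∈ A, k < p ∧ p ≤ y ∧ p.Prime := by
    intro p hp
    rw [hA, PR, Finset.mem_filter, Finset.mem_Ioc] at hp
    exact ⟨hp.1.1, hp.1.2, hp.2⟩
  have hAp : ∀ p ∈ A, p.Prime := fun p hp => (hAm p hp).2.2
  have hy0 : (0 : ℝ) < y := by
    have : 0 < y := by omega
    exact_mod_cast this
  have hlogy : 1 ≤ Real.log y := by
    have h3 : (3 : ℝ) ≤ y := by exact_mod_cast hy
    rw [Real.le_log_iff_exp_le hy0]
    linarith [Real.exp_one_lt_d9]
  have hlogy0 : 0 < Real.log y := by linarith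
  have hz1 : 1 ≤ z := (Nat.one_le_pow _ _ (by omega)).trans hz
  have hz0 : (0 : ℝ) < z := by exact_mod_cast hz1
  set w : ℕ → ℝ := fun p => (rho p : ℝ) / (p - rho p) with hw
  -- facts on a single prime
  have hfact : ∀ p ∈ A, 1 ≤ (rho p : ℝ) ∧ (rho p : ℝ) ≤ k ∧ (k : ℝ) + 1 ≤ p := by
    intro p hp
    have h1 := hrho p hp
    have h2 := hAm p hp
    refine ⟨by exact_mod_cast h1.1, by exact_mod_cast h1.2, by exact_mod_cast h2.1⟩
  have hw0 : ∀ p ∈ A, 0 ≤ w p := by
    intro p hp
    obtain ⟨h1, h2, h3⟩ := hfact p hp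
    rw [hw]
    apply div_nonneg <;> linarith
  have hwk : ∀ p ∈ A, w p ≤ k * (k + 1) / p := by
    intro p hp
    obtain ⟨h1, h2, h3⟩ := hfact p hp
    simp only [hw]
    rw [div_le_div_iff₀ (by linarith) (by linarith)]
    have t1 : (rho p : ℝ) * p ≤ k * p := by
      apply mul_le_mul_of_nonneg_right h2
      linarith
    have t2 : (k : ℝ) * p ≤ k * ((k + 1) * (p - k)) := by
      apply mul_le_mul_of_nonneg_left _ (by linarith)
      nlinarith
    have t3 : (k : ℝ) * ((k + 1) * (p - k)) ≤ k * ((k + 1) * (p - rho p)) := by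
      apply mul_le_mul_of_nonneg_left _ (by linarith)
      apply mul_le_mul_of_nonneg_left _ (by linarith)
      linarith
    linarith
  have hone : ∀ p ∈ A, (1 - (rho p : ℝ) / p)⁻¹ = 1 + w p := by
    intro p hp
    obtain ⟨h1, h2, h3⟩ := hfact p hp
    simp only [hw]
    have hp0 : (p : ℝ) ≠ 0 := by linarith
    have hp1 : (p : ℝ) - rho p ≠ 0 := by
      have : 0 < (p : ℝ) - rho p := by linarith
      exact this.ne'
    field_simp
    ring
  rw [Finset.prod_congr rfl hone, J14_sum A hAp z w]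
  have hsplit := Finset.sum_filter_add_sum_filter_not A.powerset
    (fun S => (∏ p ∈ S, p) ≤ z) (fun S => ∏ p ∈ S, w p)
  rw [← Finset.prod_one_add] at hsplit
  have htail := J14_tail A hAp z hz1 w hw0 (1 / Real.log y) (by positivity)
  set V : ℝ := ∏ p ∈ A, (1 + w p) with hV
  have hV0 : 0 < V := Finset.prod_pos fun p hp => by linarith [hw0 p hp]
  -- single factors
  have hfac : ∀ p ∈ A, 1 + w p * (p : ℝ) ^ (1 / Real.log y) ≤
      (1 + w p) * Real.exp (2 * (k : ℝ) * (k + 1) / Real.log y * (Real.log p / p)) := by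
    intro p hp
    obtain ⟨h1, h2, h3⟩ := hfact p hp
    have hp0 : (0 : ℝ) < p := by linarith
    have hlogp : 0 ≤ Real.log p := Real.log_nonneg (by linarith)
    have hlogpy : Real.log p ≤ Real.log y := by
      apply Real.log_le_log hp0
      exact_mod_cast (hAm p hp).2.1
    have e1 : (p : ℝ) ^ (1 / Real.log y) = Real.exp (Real.log p / Real.log y) := by
      rw [Real.rpow_def_of_pos hp0]
      congr 1
      ring
    have e2 := J14_exp (Real.log p / Real.log y) (by positivity)
      ((div_le_one hlogy0).2 hlogpy)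
    have hwp := hw0 p hp
    have hwk' := hwk p hp
    rw [e1]
    set q := Real.exp (Real.log p / Real.log y) with hq
    have hq1 : 1 ≤ q := Real.one_le_exp (by positivity)
    have e3 : w p * (q - 1) ≤ 2 * (k : ℝ) * (k + 1) / Real.log y * (Real.log p / p) := by
      calc w p * (q - 1) ≤ (k * (k + 1) / p) * (2 * (Real.log p / Real.log y)) := by
            gcongr
        _ = 2 * (k : ℝ) * (k + 1) / Real.log y * (Real.log p / p) := by
            field_simp
    have e4 := Real.add_one_le_exp (w p * (q - 1))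
    have e5 : Real.exp (w p * (q - 1)) ≤
        Real.exp (2 * (k : ℝ) * (k + 1) / Real.log y * (Real.log p / p)) :=
      Real.exp_le_exp.2 e3
    have e6 : 1 + w p * q ≤ (1 + w p) * (w p * (q - 1) + 1) := by
      nlinarith [mul_nonneg hwp (mul_nonneg hwp (sub_nonneg.2 hq1))]
    calc 1 + w p * q ≤ (1 + w p) * (w p * (q - 1) + 1) := e6
      _ ≤ (1 + w p) * Real.exp (2 * (k : ℝ) * (k + 1) / Real.log y * (Real.log p / p)) := by
        gcongr
        linarith
  have hprodle : ∏ p ∈ A, (1 + w p * (p : ℝ) ^ (1 / Real.log y)) ≤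
      V * Real.exp (∑ p ∈ A, 2 * (k : ℝ) * (k + 1) / Real.log y * (Real.log p / p)) := by
    rw [Real.exp_sum, hV, ← Finset.prod_mul_distrib]
    refine Finset.prod_le_prod (fun p hp => ?_) hfac
    have := hw0 p hp
    positivity
  have hmert : ∑ p ∈ A, Real.log p / p ≤ Real.log y + C := by
    have h1 := hC0 y (by omega)
    have h2 := (abs_le.1 h1).2
    have h3 : ∑ p ∈ A, Real.log p / p ≤ ∑ p ∈ (Finset.Icc 1 y).filter Nat.Prime, Real.log p / p := by
      apply Finset.sum_le_sum_of_subset_of_nonneg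
      · intro p hp
        obtain ⟨h4, h5, h6⟩ := hAm p hp
        rw [Finset.mem_filter, Finset.mem_Icc]
        exact ⟨⟨by omega, h5⟩, h6⟩
      · intro p _ _
        positivity
    have h4 := le_abs_self C0
    linarith
  have hexp : ∑ p ∈ A, 2 * (k : ℝ) * (k + 1) / Real.log y * (Real.log p / p) ≤
      2 * (k : ℝ) * (k + 1) * (1 + C) := by
    rw [← Finset.mul_sum]
    calc 2 * (k : ℝ) * (k + 1) / Real.log y * ∑ p ∈ A, Real.log p / p
        ≤ 2 * (k : ℝ) * (k + 1) / Real.log y * (Real.log y + C) := by gcongr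
      _ = 2 * (k : ℝ) * (k + 1) * (1 + C / Real.log y) := by
        field_simp
      _ ≤ 2 * (k : ℝ) * (k + 1) * (1 + C) := by
        gcongr
        exact div_le_self hCn hlogy
  have hzle : (z : ℝ) ^ (-(1 / Real.log y)) ≤ Real.exp (-(E : ℝ)) := by
    rw [Real.rpow_def_of_pos hz0]
    apply Real.exp_le_exp.2
    have h1 : (E : ℝ) * Real.log y ≤ Real.log z := by
      rw [← Real.log_pow]
      apply Real.log_le_log (by positivity)
      exact_mod_cast hz
    have h2 : (E : ℝ) ≤ Real.log z / Real.log y := by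
      rwa [le_div_iff₀ hlogy0]
    have h3 : Real.log z * -(1 / Real.log y) = -(Real.log z / Real.log y) := by ring
    rw [h3]
    linarith
  have hfinal : (z : ℝ) ^ (-(1 / Real.log y)) *
      ∏ p ∈ A, (1 + w p * (p : ℝ) ^ (1 / Real.log y)) ≤ 1 / 2 * V := by
    calc (z : ℝ) ^ (-(1 / Real.log y)) * ∏ p ∈ A, (1 + w p * (p : ℝ) ^ (1 / Real.log y))
        ≤ Real.exp (-(E : ℝ)) * (V * Real.exp (2 * (k : ℝ) * (k + 1) * (1 + C))) := by
          refine mul_le_mul hzle (hprodle.trans ?_) ?_ (Real.exp_pos _).le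
          · gcongr
          · exact Finset.prod_nonneg fun p hp => by
              have := hw0 p hp
              positivity
      _ = Real.exp (2 * (k : ℝ) * (k + 1) * (1 + C) - E) * V := by
          rw [sub_eq_add_neg, Real.exp_add]
          ring
      _ ≤ 1 / 2 * V := by
          gcongr
          have h1 : Real.exp (2 * (k : ℝ) * (k + 1) * (1 + C) - E) ≤ Real.exp (-1) :=
            Real.exp_le_exp.2 (by linarith)
          have h2 : Real.exp (-1) ≤ 1 / 2 := by
            rw [Real.exp_neg, one_div]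
            apply inv_anti₀ (by norm_num)
            linarith [Real.exp_one_gt_d9]
          linarith
  linarith

end Pool.Agent.H646.Sv2M
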