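import Mathlib
import Pool.Agent.H38.BR.S8.H646.Defs

namespace Pool.Agent.H646.Sv3M
open Finset





/-- Euler product lower bound -/
lemma log_le_euler (y : ℕ) : Real.log y ≤ ∏ p ∈ (y + 1).primesBelow, (1 - (p : ℝ)⁻¹)⁻¹ := by
  let f : ℕ →* ℝ :=
    { toFun := fun n => (n : ℝ)⁻¹
      map_one' := by simp
      map_mul' := by intro a b; push_cast; rw [mul_inv] }
  have hf : ∀ n, f n = (n : ℝ)⁻¹ := fun n => rfl
  have h := (EulerProduct.summable_and_hasSum_smoothNumbers_prod_primesBelow_geometric (f := f)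
    (by
      intro p hp
      rw [hf, norm_inv, RCLike.norm_natCast]
      have : (1 : ℝ) < p := by exact_mod_cast hp.one_lt
      exact inv_lt_one_of_one_lt₀ this) (y + 1)).2
  have hmem : ∀ n ∈ Finset.Icc 1 y, n ∈ Nat.smoothNumbers (y + 1) := by
    intro n hn
    rw [Finset.mem_Icc] at hn
    rw [Nat.mem_smoothNumbers']
    intro p hp hpn
    have := Nat.le_of_dvd (by omega) hpn
    omega
  classical
  have h2 := sum_le_hasSum ((Finset.Icc 1 y).subtype (· ∈ Nat.smoothNumbers (y + 1)))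
    (fun i _ => by rw [hf]; positivity) h
  rw [Finset.sum_subtype_of_mem (fun n => f n) hmem] at h2
  have h3 : Real.log ((y + 1 : ℕ) : ℝ) ≤ ∑ n ∈ Finset.Icc 1 y, f n := by
    have := log_add_one_le_harmonic y
    rw [harmonic_eq_sum_Icc] at this
    push_cast at this ⊢
    simpa [hf] using this
  have h4 : Real.log (y : ℝ) ≤ Real.log ((y + 1 : ℕ) : ℝ) := by
    rcases Nat.eq_zero_or_pos y with rfl | hy
    · simp
    · apply Real.log_le_log (by exact_mod_cast hy)
      push_cast; linarith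
  calc _ ≤ _ := h4
    _ ≤ _ := h3
    _ ≤ _ := h2
    _ = _ := by simp only [hf]

lemma one_le_prod_real {S : Finset ℕ} {f : ℕ → ℝ} (hf : ∀ x ∈ S, 1 ≤ f x) : 1 ≤ ∏ x ∈ S, f x := by
  calc (1 : ℝ) = ∏ _x ∈ S, (1 : ℝ) := by simp
    _ ≤ _ := Finset.prod_le_prod (fun _ _ => zero_le_one) hf

lemma prod_mono_set {S T : Finset ℕ} (h : S ⊆ T) {f : ℕ → ℝ} (hf : ∀ x ∈ T, 1 ≤ f x) :
    ∏ x ∈ S, f x ≤ ∏ x ∈ T, f x := by
  classical
  rw [← Finset.prod_sdiff h]
  have h1 : 1 ≤ ∏ x ∈ T \ S, f x := one_le_prod_real (fun x hx => hf x (Finset.mem_sdiff.1 hx).1)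
  have h2 : 0 ≤ ∏ x ∈ S, f x := Finset.prod_nonneg (fun x hx => zero_le_one.trans (hf x (h hx)))
  nlinarith

lemma prime_factor_pos {p : ℕ} (hp : p.Prime) : (0 : ℝ) < 1 - (p : ℝ)⁻¹ ∧ 1 - (p : ℝ)⁻¹ ≤ 1 := by
  have h1 : (1 : ℝ) < p := by exact_mod_cast hp.one_lt
  have h2 : (p : ℝ)⁻¹ < 1 := inv_lt_one_of_one_lt₀ h1
  have h3 : (0 : ℝ) < (p : ℝ)⁻¹ := by positivity
  constructor <;> linarith

lemma one_le_inv_factor {p : ℕ} (hp : p.Prime) : 1 ≤ (1 - (p : ℝ)⁻¹)⁻¹ := by
  obtain ⟨h1, h2⟩ := prime_factor_pos hp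
  exact (one_le_inv₀ h1).2 h2

lemma rat_eq {n : ℕ} (hn : 0 < n) : rat n = ∏ p ∈ n.primeFactors, (1 - (p : ℝ)⁻¹)⁻¹ := by
  have h := Nat.totient_eq_mul_prod_factors n
  have h' : (n.totient : ℝ) = n * ∏ p ∈ n.primeFactors, (1 - (p : ℝ)⁻¹) := by
    have := congrArg (fun q : ℚ => (q : ℝ)) h
    push_cast at this
    exact this
  have hn' : (n : ℝ) ≠ 0 := by exact_mod_cast hn.ne'
  have hP : (∏ p ∈ n.primeFactors, (1 - (p : ℝ)⁻¹)) ≠ 0 := by
    rw [Finset.prod_ne_zero_iff]
    intro p hp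
    exact (prime_factor_pos (Nat.prime_of_mem_primeFactors hp)).1.ne'
  unfold rat
  rw [h', Finset.prod_inv_distrib]
  field_simp

lemma rho_pos {k : ℕ} (hk : 1 ≤ k) (d : Fin k → ℕ) (p : ℕ) : 1 ≤ rho d p := by
  unfold rho
  rw [Nat.one_le_iff_ne_zero, ← Nat.pos_iff_ne_zero, Finset.card_pos]
  exact ⟨_, Finset.mem_image_of_mem _ (Finset.mem_univ ⟨0, hk⟩)⟩

lemma rho_le {k : ℕ} (d : Fin k → ℕ) (p : ℕ) : rho d p ≤ k := by
  unfold rho
  exact Finset.card_image_le.trans (by simp)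

lemma rho_good {k : ℕ} {d : Fin k → ℕ} (hd : StrictMono d) {p : ℕ}
    (h : ∀ i j : Fin k, i < j → ¬ p ∣ d j - d i) : rho d p = k := by
  unfold rho
  rw [Finset.card_image_of_injective, Finset.card_univ, Fintype.card_fin]
  intro i j hij
  have hij : d i % p = d j % p := hij
  rcases lt_trichotomy i j with hlt | heq | hgt
  · exact (h i j hlt ((Nat.modEq_iff_dvd' (hd hlt).le).1 hij)).elim
  · exact heq
  · exact (h j i hgt ((Nat.modEq_iff_dvd' (hd hgt).le).1 hij.symm)).elim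

/-- upper bound for the sieve product by the 'singular series'. -/
theorem product_bound (k : ℕ) (hk : 1 ≤ k) :
    ∃ C > (0 : ℝ), ∃ A : ℕ, ∀ y : ℕ, 2 ≤ y → ∀ d : Fin k → ℕ, StrictMono d →
      ∏ p ∈ PR k y, (1 - (rho d p : ℝ) / p) ≤
        C / (Real.log y) ^ k * ∏ q ∈ (univ : Finset (Fin k × Fin k)) with q.1 < q.2, rat (d q.2 - d q.1) ^ A := by
  classical
  set Ck : ℝ := ∏ p ∈ (k + 1).primesBelow, (1 - (p : ℝ)⁻¹)⁻¹ with hCk
  have hCk1 : 1 ≤ Ck := one_le_prod_real (fun p hp => one_le_inv_factor (Nat.prime_of_mem_primesBelow hp))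
  refine ⟨Ck ^ k, by positivity, k, ?_⟩
  intro y hy d hd
  have hlog : 0 < Real.log y := Real.log_pos (by exact_mod_cast hy)
  have hPR : ∀ p ∈ PR k y, p.Prime ∧ k < p ∧ p ≤ y := by
    intro p hp
    unfold PR at hp
    rw [Finset.mem_filter, Finset.mem_Ioc] at hp
    exact ⟨hp.2, hp.1.1, hp.1.2⟩
  -- Mertens
  have hM : ∏ p ∈ PR k y, (1 - (p : ℝ)⁻¹) ≤ Ck / Real.log y := by
    have h1 : Real.log y ≤ (∏ p ∈ PR k y, (1 - (p : ℝ)⁻¹)⁻¹) * Ck := by
      have hsub : (y + 1).primesBelow ⊆ PR k y ∪ (k + 1).primesBelow := by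
        intro p hp
        rw [Nat.mem_primesBelow] at hp
        rw [Finset.mem_union]
        by_cases hpk : k < p
        · left
          unfold PR
          rw [Finset.mem_filter, Finset.mem_Ioc]
          exact ⟨⟨hpk, by omega⟩, hp.2⟩
        · right
          rw [Nat.mem_primesBelow]
          exact ⟨by omega, hp.2⟩
      have hdis : Disjoint (PR k y) ((k + 1).primesBelow) := by
        rw [Finset.disjoint_left]
        intro p hp hp2
        rw [Nat.mem_primesBelow] at hp2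
        have := (hPR p hp).2.1
        omega
      calc Real.log y ≤ ∏ p ∈ (y + 1).primesBelow, (1 - (p : ℝ)⁻¹)⁻¹ := log_le_euler y
        _ ≤ ∏ p ∈ PR k y ∪ (k + 1).primesBelow, (1 - (p : ℝ)⁻¹)⁻¹ := by
            apply prod_mono_set hsub
            intro p hp
            rw [Finset.mem_union] at hp
            rcases hp with hp | hp
            · exact one_le_inv_factor (hPR p hp).1
            · exact one_le_inv_factor (Nat.prime_of_mem_primesBelow hp)
        _ = _ := by rw [Finset.prod_union hdis]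
    have hpos : 0 < ∏ p ∈ PR k y, (1 - (p : ℝ)⁻¹) :=
      Finset.prod_pos (fun p hp => (prime_factor_pos (hPR p hp).1).1)
    rw [Finset.prod_inv_distrib] at h1
    rw [le_div_iff₀ hlog]
    have h2 := mul_le_mul_of_nonneg_left h1 hpos.le
    calc _ ≤ _ := h2
      _ = Ck := by rw [← mul_assoc, mul_inv_cancel₀ hpos.ne', one_mul]
  -- factorwise
  have hfac : ∀ p ∈ PR k y, (1 - (rho d p : ℝ) / p) ≤ (1 - (p : ℝ)⁻¹) ^ k *
      ∏ q ∈ (univ : Finset (Fin k × Fin k)) with q.1 < q.2,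
        (if p ∣ d q.2 - d q.1 then ((1 - (p : ℝ)⁻¹)⁻¹) ^ k else 1) := by
    intro p hp
    obtain ⟨hpp, hkp, hpy⟩ := hPR p hp
    obtain ⟨f1, f2⟩ := prime_factor_pos hpp
    have hp0 : (0 : ℝ) < p := by exact_mod_cast hpp.pos
    have hterm : ∀ q : Fin k × Fin k, 1 ≤
        (if p ∣ d q.2 - d q.1 then ((1 - (p : ℝ)⁻¹)⁻¹) ^ k else 1) := by
      intro q
      split_ifs
      · exact one_le_pow₀ (one_le_inv_factor hpp)
      · exact le_rfl
    by_cases hbad : ∃ q : Fin k × Fin k, q.1 < q.2 ∧ p ∣ d q.2 - d q.1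
    · obtain ⟨q, hq1, hq2⟩ := hbad
      have hq : q ∈ ({q ∈ (univ : Finset (Fin k × Fin k)) | q.1 < q.2}) := by
        rw [Finset.mem_filter]; exact ⟨Finset.mem_univ _, hq1⟩
      have h1 : (1 - (rho d p : ℝ) / p) ≤ 1 := by
        have : (0 : ℝ) ≤ (rho d p : ℝ) / p := by positivity
        linarith
      refine h1.trans ?_
      rw [← Finset.mul_prod_erase _ _ hq, if_pos hq2, ← mul_assoc, ← mul_pow,
        mul_inv_cancel₀ f1.ne', one_pow, one_mul]
      calc (1 : ℝ) = ∏ _q ∈ ({q ∈ (univ : Finset (Fin k × Fin k)) | q.1 < q.2}).erase q, (1 : ℝ) := by simp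
        _ ≤ _ := Finset.prod_le_prod (fun _ _ => zero_le_one) (fun q _ => hterm q)
    · push Not at hbad
      have hrho : rho d p = k := rho_good hd (fun i j hij => hbad (i, j) hij)
      rw [hrho]
      have h1 : ∏ q ∈ (univ : Finset (Fin k × Fin k)) with q.1 < q.2,
        (if p ∣ d q.2 - d q.1 then ((1 - (p : ℝ)⁻¹)⁻¹) ^ k else 1) = 1 := by
        apply Finset.prod_eq_one
        intro q hq
        rw [Finset.mem_filter] at hq
        rw [if_neg (hbad q hq.2)]
      rw [h1, mul_one]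
      have h2 := one_add_mul_le_pow (a := -(p : ℝ)⁻¹) (by
        have : (p : ℝ)⁻¹ ≤ 1 := by linarith
        linarith) k
      calc (1 - (k : ℝ) / p) = 1 + (k : ℝ) * (-(p : ℝ)⁻¹) := by rw [div_eq_mul_inv]; ring
        _ ≤ _ := h2
        _ = _ := by rw [← sub_eq_add_neg]
  have hnn : ∀ p ∈ PR k y, 0 ≤ (1 - (rho d p : ℝ) / p) := by
    intro p hp
    obtain ⟨hpp, hkp, hpy⟩ := hPR p hp
    have hp0 : (0 : ℝ) < p := by exact_mod_cast hpp.pos
    have : (rho d p : ℝ) / p ≤ 1 := by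
      rw [div_le_one hp0]
      exact_mod_cast (rho_le d p).trans hkp.le
    linarith
  calc ∏ p ∈ PR k y, (1 - (rho d p : ℝ) / p)
      ≤ ∏ p ∈ PR k y, ((1 - (p : ℝ)⁻¹) ^ k *
      ∏ q ∈ (univ : Finset (Fin k × Fin k)) with q.1 < q.2,
        (if p ∣ d q.2 - d q.1 then ((1 - (p : ℝ)⁻¹)⁻¹) ^ k else 1)) := Finset.prod_le_prod hnn hfac
    _ = (∏ p ∈ PR k y, (1 - (p : ℝ)⁻¹)) ^ k * ∏ q ∈ (univ : Finset (Fin k × Fin k)) with q.1 < q.2,
        ∏ p ∈ PR k y, (if p ∣ d q.2 - d q.1 then ((1 - (p : ℝ)⁻¹)⁻¹) ^ k else 1) := by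
        rw [Finset.prod_mul_distrib, Finset.prod_pow, Finset.prod_comm]
    _ ≤ (Ck / Real.log y) ^ k * ∏ q ∈ (univ : Finset (Fin k × Fin k)) with q.1 < q.2,
        rat (d q.2 - d q.1) ^ k := by
        apply mul_le_mul
        · apply pow_le_pow_left₀ _ hM
          exact Finset.prod_nonneg (fun p hp => (prime_factor_pos (hPR p hp).1).1.le)
        · apply Finset.prod_le_prod
          · intro q _
            apply Finset.prod_nonneg
            intro p hp
            split_ifs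
            · exact pow_nonneg (zero_le_one.trans (one_le_inv_factor (hPR p hp).1)) _
            · exact zero_le_one
          · intro q hq
            rw [Finset.mem_filter] at hq
            have hpos : 0 < d q.2 - d q.1 := Nat.sub_pos_of_lt (hd hq.2)
            rw [← Finset.prod_filter, Finset.prod_pow, rat_eq hpos]
            apply pow_le_pow_left₀
            · exact Finset.prod_nonneg (fun p hp => zero_le_one.trans
                (one_le_inv_factor (hPR p (Finset.mem_filter.1 hp).1).1))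
            · apply prod_mono_set
              · intro p hp
                rw [Finset.mem_filter] at hp
                rw [Nat.mem_primeFactors]
                exact ⟨(hPR p hp.1).1, hp.2, hpos.ne'⟩
              · intro p hp
                exact one_le_inv_factor (Nat.prime_of_mem_primeFactors hp)
        · apply Finset.prod_nonneg
          intro q _
          apply Finset.prod_nonneg
          intro p hp
          split_ifs
          · exact pow_nonneg (zero_le_one.trans (one_le_inv_factor (hPR p hp).1)) _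
          · exact zero_le_one
        · positivity
    _ = _ := by rw [div_pow]

end Pool.Agent.H646.Sv3M
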