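import Mathlib
import Pool.Agent.H38.BR.S8.H646.Defs
import Pool.Agent.H38.BR.S8.H646.Moment
import Pool.Agent.H38.BR.S8.H646.Sv1
import Pool.Agent.H38.BR.S8.H646.Sv2
import Pool.Agent.H38.BR.S8.H646.Sv3

namespace Pool.Agent.H646.TuplesM
open Finset
open Pool.Agent.H646.MomentM (rat_moment)
open Pool.Agent.H646.Sv1M (tuple_selberg)
open Pool.Agent.H646.Sv2M (rankin_lower)
open Pool.Agent.H646.Sv3M (product_bound)





-- the following four theorems are proved elsewhere: leave their sorry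






lemma rat_ge_one {n : ℕ} (hn : 1 ≤ n) : 1 ≤ rat n := by
  unfold rat
  have h1 : 0 < n.totient := Nat.totient_pos.mpr hn
  rw [one_le_div (by exact_mod_cast h1)]
  exact_mod_cast Nat.totient_le n

lemma rat_nonneg (n : ℕ) : 0 ≤ rat n := by
  unfold rat; positivity

lemma prod_rat_ge_one {k : ℕ} {d : Fin k → ℕ} (hd : StrictMono d) (A : ℕ) :
    1 ≤ ∏ q ∈ (univ : Finset (Fin k × Fin k)) with q.1 < q.2, rat (d q.2 - d q.1) ^ A := by
  apply Finset.prod_induction _ (fun x : ℝ => 1 ≤ x)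
    (fun a b ha hb => one_le_mul_of_one_le_of_one_le ha hb) le_rfl
  intro q hq
  have h1 := hd (mem_filter.mp hq).2
  exact one_le_pow₀ (rat_ge_one (by omega))

lemma rho_bounds {k : ℕ} (hk : 1 ≤ k) (d : Fin k → ℕ) (p : ℕ) : 1 ≤ rho d p ∧ rho d p ≤ k := by
  unfold rho
  constructor
  · rw [Nat.one_le_iff_ne_zero, Finset.card_ne_zero]
    exact ⟨d ⟨0, hk⟩ % p, mem_image_of_mem _ (mem_univ _)⟩
  · calc _ ≤ #(univ : Finset (Fin k)) := card_image_le
      _ = k := by simp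

lemma ev_log (k : ℕ) : ∀ᶠ x : ℕ in Filter.atTop, 2 * (Real.log x) ^ k ≤ (x : ℝ) ^ (1 / 2 : ℝ) := by
  have h1 : (fun x : ℝ => Real.log x ^ (k : ℝ)) =o[Filter.atTop] fun x : ℝ => x ^ (1 / 2 : ℝ) :=
    isLittleO_log_rpow_rpow_atTop (k : ℝ) (by norm_num)
  have h2 := (h1.bound (c := 1 / 2) (by norm_num))
  have h3 := tendsto_natCast_atTop_atTop (R := ℝ) |>.eventually h2
  filter_upwards [h3, Filter.eventually_ge_atTop 1] with x hx hx1
  have h4 : 0 ≤ Real.log x := Real.log_natCast_nonneg x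
  rw [Real.rpow_natCast, Real.norm_of_nonneg (by positivity), Real.norm_of_nonneg (by positivity)] at hx
  linarith

/-- target 1: sieve bound for a single tuple -/
theorem tuple_bound (k : ℕ) (hk : 1 ≤ k) :
    ∃ C > (0 : ℝ), ∃ A x₀ : ℕ, ∀ x : ℕ, x₀ ≤ x → ∀ d : Fin k → ℕ, StrictMono d →
      (#{n ∈ Icc 1 x | ∀ j, (n + d j).Prime} : ℝ) ≤
        C * x / (Real.log x) ^ k * ∏ q ∈ (univ : Finset (Fin k × Fin k)) with q.1 < q.2, rat (d q.2 - d q.1) ^ A := by
  obtain ⟨E, hE, y₀, hR⟩ := rankin_lower k hk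
  obtain ⟨C, hC, A, hP⟩ := product_bound k hk
  -- eventually conditions on u = x^(1/(12E))
  have hE' : (0 : ℝ) < 1 / (12 * E) := by
    have : (0 : ℝ) < E := by exact_mod_cast hE
    positivity
  have hu : Filter.Tendsto (fun x : ℕ => (x : ℝ) ^ (1 / (12 * E) : ℝ)) Filter.atTop Filter.atTop :=
    (tendsto_rpow_atTop hE').comp tendsto_natCast_atTop_atTop
  have hu1 := hu.eventually_ge_atTop (max (4 : ℝ) (y₀ + 2))
  obtain ⟨x₀, hx₀⟩ := Filter.eventually_atTop.mp
    ((ev_log k).and (hu1.and (Filter.eventually_ge_atTop 3)))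
  refine ⟨1 + 2 * C * (24 * E) ^ k, by positivity, A, x₀, ?_⟩
  intro x hx d hd
  obtain ⟨h1, h2, h3⟩ := hx₀ x hx
  set u : ℝ := (x : ℝ) ^ (1 / (12 * E) : ℝ) with hudef
  have hu4 : 4 ≤ u := le_trans (le_max_left _ _) h2
  have huy : (y₀ : ℝ) + 2 ≤ u := le_trans (le_max_right _ _) h2
  set y : ℕ := ⌊u⌋₊ with hy
  have hyu : (y : ℝ) ≤ u := Nat.floor_le (by linarith)
  have hyu2 : u / 2 ≤ y := by
    have := Nat.lt_floor_add_one u
    linarith
  have hy0 : y₀ ≤ y := Nat.le_floor (by linarith)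
  have hy2 : 2 ≤ y := Nat.le_floor (by push_cast; linarith)
  have hx0 : (0 : ℝ) < x := by exact_mod_cast (by omega : 0 < x)
  have hx1 : (1 : ℝ) ≤ x := by exact_mod_cast (by omega : 1 ≤ x)
  have hlogx : 0 < Real.log x := Real.log_pos (by exact_mod_cast (by omega : 1 < x))
  have hEr : (0 : ℝ) < E := by exact_mod_cast hE
  have hlogu : Real.log u = Real.log x / (12 * E) := by
    rw [hudef, Real.log_rpow hx0]; ring
  have hlogy : Real.log x / (24 * E) ≤ Real.log y := by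
    have h4 : Real.log (u / 2) ≤ Real.log y := Real.log_le_log (by linarith) hyu2
    rw [Real.log_div (by linarith) (by norm_num)] at h4
    have h5 : 2 * Real.log 2 ≤ Real.log u := by
      have : Real.log (2 ^ 2) ≤ Real.log u := Real.log_le_log (by norm_num) (by linarith)
      rw [Real.log_pow] at this
      simpa using this
    have h6 : Real.log x / (24 * E) = Real.log u / 2 := by rw [hlogu]; field_simp; ring
    linarith
  have hlogy0 : 0 < Real.log x / (24 * E) := by positivity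
  -- z
  set z : ℕ := y ^ E with hz
  have hz1 : 1 ≤ z := Nat.one_le_pow _ _ (by omega)
  have hupow : u ^ (6 * E) = (x : ℝ) ^ (1 / 2 : ℝ) := by
    rw [hudef, ← Real.rpow_natCast, ← Real.rpow_mul hx0.le]
    congr 1
    push_cast
    field_simp
    ring
  have hz6 : (z : ℝ) ^ 6 ≤ (x : ℝ) ^ (1 / 2 : ℝ) := by
    rw [hz, ← hupow]
    push_cast
    rw [← pow_mul, mul_comm E 6]
    exact pow_le_pow_left₀ (by positivity) hyu _
  have hyx : (y : ℝ) ≤ (x : ℝ) ^ (1 / 2 : ℝ) := by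
    rw [← hupow]
    calc (y : ℝ) ≤ u := hyu
      _ = u ^ 1 := (pow_one u).symm
      _ ≤ u ^ (6 * E) := pow_le_pow_right₀ (by linarith) (by omega)
  have hS := hR y hy0 (rho d) (fun p _ => rho_bounds hk d p) z le_rfl
  set S := ∑ l ∈ (∏ p ∈ PR k y, p).divisors with l ≤ z,
          ∏ p ∈ l.primeFactors, (rho d p : ℝ) / (p - rho d p) with hSdef
  have hprod : ∏ p ∈ PR k y, (1 - (rho d p : ℝ) / p)⁻¹ = (∏ p ∈ PR k y, (1 - (rho d p : ℝ) / p))⁻¹ :=
    Finset.prod_inv_distrib _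
  set PP := ∏ p ∈ PR k y, (1 - (rho d p : ℝ) / p) with hPP
  have hPP0 : 0 < PP := by
    apply Finset.prod_pos
    intro p hp
    have h4 := (mem_filter.mp hp).1
    rw [mem_Ioc] at h4
    have h5 := (rho_bounds hk d p).2
    have h6 : (0 : ℝ) < p := by exact_mod_cast (by omega : 0 < p)
    rw [sub_pos, div_lt_one h6]
    exact_mod_cast (by omega : rho d p < p)
  rw [hprod] at hS
  have hS0 : 0 < S := lt_of_lt_of_le (by positivity) hS
  have hinv : 1 / S ≤ 2 * PP := by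
    rw [div_le_iff₀ hS0]
    have : 2 * PP * (1 / 2 * PP⁻¹) ≤ 2 * PP * S := mul_le_mul_of_nonneg_left hS (by positivity)
    have h4 : 2 * PP * (1 / 2 * PP⁻¹) = 1 := by field_simp
    linarith
  have hPb := hP y hy2 d hd
  rw [← hPP] at hPb
  set R := ∏ q ∈ (univ : Finset (Fin k × Fin k)) with q.1 < q.2, rat (d q.2 - d q.1) ^ A with hRdef
  have hR1 : 1 ≤ R := prod_rat_ge_one hd A
  have hmain := tuple_selberg k hk d hd.injective x y z hz1
  have hxS : (x : ℝ) / S ≤ x * (2 * (C / (Real.log x / (24 * E)) ^ k * R)) := by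
    rw [div_eq_mul_one_div]
    apply mul_le_mul_of_nonneg_left _ hx0.le
    refine hinv.trans ?_
    apply mul_le_mul_of_nonneg_left _ (by norm_num)
    refine hPb.trans ?_
    apply mul_le_mul_of_nonneg_right _ (by linarith)
    apply div_le_div_of_nonneg_left hC.le (by positivity)
    exact pow_le_pow_left₀ hlogy0.le hlogy _
  have hrest : (y : ℝ) + (z : ℝ) ^ 6 ≤ x / (Real.log x) ^ k * R := by
    have h4 : (y : ℝ) + (z : ℝ) ^ 6 ≤ 2 * (x : ℝ) ^ (1 / 2 : ℝ) := by linarith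
    have h5 : 2 * (x : ℝ) ^ (1 / 2 : ℝ) ≤ x / (Real.log x) ^ k := by
      rw [le_div_iff₀ (by positivity)]
      have h6 : (x : ℝ) ^ (1 / 2 : ℝ) * (x : ℝ) ^ (1 / 2 : ℝ) = x := by
        rw [← Real.rpow_add hx0]; norm_num
      calc 2 * (x : ℝ) ^ (1 / 2 : ℝ) * Real.log x ^ k = (x : ℝ) ^ (1 / 2 : ℝ) * (2 * Real.log x ^ k) := by ring
        _ ≤ (x : ℝ) ^ (1 / 2 : ℝ) * (x : ℝ) ^ (1 / 2 : ℝ) := mul_le_mul_of_nonneg_left h1 (by positivity)
        _ = x := h6
    have h7 : 0 ≤ (x : ℝ) / (Real.log x) ^ k := by positivity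
    calc _ ≤ _ := h4
      _ ≤ _ := h5
      _ = x / (Real.log x) ^ k * 1 := (mul_one _).symm
      _ ≤ _ := mul_le_mul_of_nonneg_left hR1 h7
  calc (#{n ∈ Icc 1 x | ∀ j, (n + d j).Prime} : ℝ) ≤ y + x / S + (z : ℝ) ^ 6 := hmain
    _ = (y + (z : ℝ) ^ 6) + x / S := by ring
    _ ≤ x / (Real.log x) ^ k * R + x * (2 * (C / (Real.log x / (24 * E)) ^ k * R)) :=
        add_le_add hrest hxS
    _ = (1 + 2 * C * (24 * E) ^ k) * x / (Real.log x) ^ k * R := by
        rw [div_pow]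
        field_simp

lemma sum_le_of_inj {α β : Type} [DecidableEq β] (T : Finset α) (φ : α → β) (B : Finset β)
    (g : β → ℝ) (hg : ∀ b, 0 ≤ g b) (hφ : ∀ a ∈ T, φ a ∈ B)
    (hinj : ∀ a ∈ T, ∀ a' ∈ T, φ a = φ a' → a = a') : ∑ a ∈ T, g (φ a) ≤ ∑ b ∈ B, g b := by
  rw [← Finset.sum_image (f := g) (g := φ) (s := T) (fun a ha a' ha' h => hinj a ha a' ha' h)]
  apply Finset.sum_le_sum_of_subset_of_nonneg
  · intro b hb
    obtain ⟨a, ha, rfl⟩ := mem_image.mp hb
    exact hφ a ha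
  · intro b _ _
    exact hg b

/-- admissible tuples -/
def Adm (k H L : ℕ) (lo : ℕ → Fin (k + 3) → ℤ) : Finset (Fin (k + 3) → ℕ) :=
  {d ∈ Fintype.piFinset (fun _ : Fin (k + 3) => Icc 0 H) |
    StrictMono d ∧ d 0 = 0 ∧
      (∀ j : Fin (k + 3), 2 ≤ (j : ℕ) → lo (d 1) j ≤ d j ∧ (d j : ℤ) < lo (d 1) j + L)}

lemma card_off (k : ℕ) (j : Fin (k + 3)) (hj : 2 ≤ (j : ℕ)) (L : ℕ) :
    #(Fintype.piFinset (fun l : Fin (k + 3) => if 2 ≤ (l : ℕ) ∧ l ≠ j then range L else {0})) =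
      L ^ k := by
  rw [Fintype.card_piFinset]
  have h1 : ∀ l : Fin (k + 3), #(if 2 ≤ (l : ℕ) ∧ l ≠ j then range L else {0}) =
      if 2 ≤ (l : ℕ) ∧ l ≠ j then L else 1 := by
    intro l; split_ifs <;> simp
  simp only [h1]
  rw [Finset.prod_ite, Finset.prod_const, Finset.prod_const_one, mul_one]
  congr 1
  have h2 : (univ.filter fun l : Fin (k + 3) => 2 ≤ (l : ℕ) ∧ l ≠ j) =
      (univ : Finset (Fin (k + 3))) \ {0, 1, j} := by
    ext l
    simp only [mem_filter, mem_univ, true_and, mem_sdiff, mem_insert, mem_singleton, not_or]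
    constructor
    · rintro ⟨a, b⟩
      refine ⟨?_, ?_, b⟩
      · rintro rfl; simp at a
      · rintro rfl; simp at a
    · rintro ⟨a, b, c⟩
      refine ⟨?_, c⟩
      by_contra h
      have : (l : ℕ) = 0 ∨ (l : ℕ) = 1 := by omega
      rcases this with h | h
      · exact a (Fin.ext (by simpa using h))
      · exact b (Fin.ext (by simpa using h))
  rw [h2, Finset.card_sdiff_of_subset (by simp)]
  have h3 : #({0, 1, j} : Finset (Fin (k + 3))) = 3 := by
    rw [card_eq_three]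
    refine ⟨0, 1, j, ?_, ?_, ?_, rfl⟩
    · intro h; have := congrArg Fin.val h; simp at this
    · intro h; rw [← h] at hj; simp at hj
    · intro h; rw [← h] at hj; simp at hj
  rw [h3]; simp

lemma card_off1 (k : ℕ) (L : ℕ) :
    #(Fintype.piFinset (fun l : Fin (k + 3) => if 2 ≤ (l : ℕ) then range L else {0})) =
      L ^ (k + 1) := by
  rw [Fintype.card_piFinset]
  have h1 : ∀ l : Fin (k + 3), #(if 2 ≤ (l : ℕ) then range L else {0}) =
      if 2 ≤ (l : ℕ) then L else 1 := by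
    intro l; split_ifs <;> simp
  simp only [h1]
  rw [Finset.prod_ite, Finset.prod_const, Finset.prod_const_one, mul_one]
  congr 1
  have h2 : (univ.filter fun l : Fin (k + 3) => 2 ≤ (l : ℕ)) =
      (univ : Finset (Fin (k + 3))) \ {0, 1} := by
    ext l
    simp only [mem_filter, mem_univ, true_and, mem_sdiff, mem_insert, mem_singleton, not_or]
    constructor
    · intro a
      refine ⟨?_, ?_⟩
      · rintro rfl; simp at a
      · rintro rfl; simp at a
    · rintro ⟨a, b⟩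
      by_contra h
      have : (l : ℕ) = 0 ∨ (l : ℕ) = 1 := by omega
      rcases this with h | h
      · exact a (Fin.ext (by simpa using h))
      · exact b (Fin.ext (by simpa using h))
  rw [h2, Finset.card_sdiff_of_subset (by simp)]
  have h3 : #({0, 1} : Finset (Fin (k + 3))) = 2 := by
    rw [card_eq_two]
    refine ⟨0, 1, ?_, rfl⟩
    intro h; have := congrArg Fin.val h; simp at this
  rw [h3]; simp

lemma pair_sum (k : ℕ) (A' : ℕ) (C : ℝ) (hC : 0 < C)
    (hmom : ∀ N : ℕ, ∑ n ∈ Icc 1 N, rat n ^ A' ≤ C * N) (H L : ℕ) (hL : 1 ≤ L) (hLH : L ≤ H)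
    (lo : ℕ → Fin (k + 3) → ℤ) (i j : Fin (k + 3)) (hij : i < j) :
    ∑ d ∈ Adm k H L lo, rat (d j - d i) ^ A' ≤ C * (H : ℝ) ^ 2 * (L : ℝ) ^ k := by
  classical
  have hadm : ∀ d ∈ Adm k H L lo, (∀ l, d l ≤ H) ∧ StrictMono d ∧ d 0 = 0 ∧
      (∀ j : Fin (k + 3), 2 ≤ (j : ℕ) → lo (d 1) j ≤ d j ∧ (d j : ℤ) < lo (d 1) j + L) := by
    intro d hd
    have h1 := mem_filter.mp hd
    exact ⟨fun l => (mem_Icc.mp (Fintype.mem_piFinset.mp h1.1 l)).2, h1.2⟩
  have h01 : (0 : Fin (k + 3)) < 1 := by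
    rw [Fin.lt_def]; simp
  have hH0 : (0 : ℝ) ≤ H := by positivity
  by_cases hj : 2 ≤ (j : ℕ)
  · set φ : (Fin (k + 3) → ℕ) → ℕ × (Fin (k + 3) → ℕ) × ℕ := fun d =>
      (d 1, (fun l => if 2 ≤ (l : ℕ) ∧ l ≠ j then ((d l : ℤ) - lo (d 1) l).toNat else 0), d j - d i)
      with hφ
    set B : Finset (ℕ × (Fin (k + 3) → ℕ) × ℕ) := Icc 1 H ×ˢ
      (Fintype.piFinset (fun l : Fin (k + 3) => if 2 ≤ (l : ℕ) ∧ l ≠ j then range L else {0})) ×ˢ
      Icc 1 H with hB
    have h1 := sum_le_of_inj (Adm k H L lo) φ B (fun b => rat b.2.2 ^ A')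
      (fun b => pow_nonneg (rat_nonneg _) _) (by
        intro d hd
        obtain ⟨h2, h3, h4, h5⟩ := hadm d hd
        rw [hB, mem_product, mem_product]
        refine ⟨?_, ?_, ?_⟩
        · rw [mem_Icc]
          have := h3 h01
          exact ⟨by show 1 ≤ d 1; omega, h2 1⟩
        · rw [Fintype.mem_piFinset]
          intro l
          simp only [hφ]
          split_ifs with h6
          · rw [mem_range]
            have := h5 l h6.1
            omega
          · simp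
        · rw [mem_Icc]
          have := h3 hij
          have := h2 j
          constructor
          · show 1 ≤ d j - d i; omega
          · show d j - d i ≤ H; omega) (by
        intro d hd d' hd' h
        obtain ⟨h2, h3, h4, h5⟩ := hadm d hd
        obtain ⟨h2', h3', h4', h5'⟩ := hadm d' hd'
        simp only [hφ, Prod.mk.injEq] at h
        obtain ⟨e1, e2, e3⟩ := h
        have key : ∀ l, l ≠ j → d l = d' l := by
          intro l hl
          by_cases h6 : 2 ≤ (l : ℕ)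
          · have e4 := congrFun e2 l
            simp only [h6, hl, ne_eq, not_false_eq_true, and_self, if_true] at e4
            have a1 := h5 l h6
            have a2 := h5' l h6
            rw [e1] at e4 a1
            omega
          · have : (l : ℕ) = 0 ∨ (l : ℕ) = 1 := by omega
            rcases this with h7 | h7
            · have : l = 0 := Fin.ext (by simpa using h7)
              rw [this, h4, h4']
            · have : l = 1 := Fin.ext (by simpa using h7)
              rw [this, e1]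
        funext l
        by_cases hl : l = j
        · rw [hl]
          have a1 := key i hij.ne
          have a2 := h3 hij
          have a3 := h3' hij
          omega
        · exact key l hl)
    have h2 : ∑ b ∈ B, rat b.2.2 ^ A' = (H : ℝ) * (L : ℝ) ^ k * ∑ u ∈ Icc 1 H, rat u ^ A' := by
      rw [hB, Finset.sum_product]
      simp only [Finset.sum_product, Finset.sum_const, card_off k j hj L, Nat.card_Icc,
        nsmul_eq_mul, Nat.add_sub_cancel]
      push_cast
      ring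
    calc ∑ d ∈ Adm k H L lo, rat (d j - d i) ^ A' ≤ ∑ b ∈ B, rat b.2.2 ^ A' := h1
      _ = (H : ℝ) * (L : ℝ) ^ k * ∑ u ∈ Icc 1 H, rat u ^ A' := h2
      _ ≤ (H : ℝ) * (L : ℝ) ^ k * (C * H) := mul_le_mul_of_nonneg_left (hmom H) (by positivity)
      _ = _ := by ring
  · -- j = 1, i = 0
    have hj1 : j = 1 := by
      have h1 : (i : ℕ) < (j : ℕ) := hij
      exact Fin.ext (by simp; omega)
    have hi0 : i = 0 := by
      have h1 : (i : ℕ) < (j : ℕ) := hij
      exact Fin.ext (by simp; omega)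
    subst hj1 hi0
    set φ : (Fin (k + 3) → ℕ) → ℕ × (Fin (k + 3) → ℕ) := fun d =>
      (d 1, (fun l => if 2 ≤ (l : ℕ) then ((d l : ℤ) - lo (d 1) l).toNat else 0))
      with hφ
    set B : Finset (ℕ × (Fin (k + 3) → ℕ)) := Icc 1 H ×ˢ
      (Fintype.piFinset (fun l : Fin (k + 3) => if 2 ≤ (l : ℕ) then range L else {0})) with hB
    have h1 := sum_le_of_inj (Adm k H L lo) φ B (fun b => rat b.1 ^ A')
      (fun b => pow_nonneg (rat_nonneg _) _) (by
        intro d hd
        obtain ⟨h2, h3, h4, h5⟩ := hadm d hd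
        rw [hB, mem_product]
        refine ⟨?_, ?_⟩
        · rw [mem_Icc]
          have := h3 h01
          exact ⟨by show 1 ≤ d 1; omega, h2 1⟩
        · rw [Fintype.mem_piFinset]
          intro l
          simp only [hφ]
          split_ifs with h6
          · rw [mem_range]
            have := h5 l h6
            omega
          · simp) (by
        intro d hd d' hd' h
        obtain ⟨h2, h3, h4, h5⟩ := hadm d hd
        obtain ⟨h2', h3', h4', h5'⟩ := hadm d' hd'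
        simp only [hφ, Prod.mk.injEq] at h
        obtain ⟨e1, e2⟩ := h
        funext l
        by_cases h6 : 2 ≤ (l : ℕ)
        · have e4 := congrFun e2 l
          simp only [h6, if_true] at e4
          have a1 := h5 l h6
          have a2 := h5' l h6
          rw [e1] at e4 a1
          omega
        · have : (l : ℕ) = 0 ∨ (l : ℕ) = 1 := by omega
          rcases this with h7 | h7
          · have : l = 0 := Fin.ext (by simpa using h7)
            rw [this, h4, h4']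
          · have : l = 1 := Fin.ext (by simpa using h7)
            rw [this, e1])
    have h2 : ∑ b ∈ B, rat b.1 ^ A' = (L : ℝ) ^ (k + 1) * ∑ u ∈ Icc 1 H, rat u ^ A' := by
      rw [hB, Finset.sum_product]
      simp only [Finset.sum_const, card_off1 k L, nsmul_eq_mul]
      push_cast
      rw [Finset.mul_sum]
    have h3 : ∑ d ∈ Adm k H L lo, rat (d 1 - d 0) ^ A' = ∑ d ∈ Adm k H L lo, rat (φ d).1 ^ A' := by
      apply Finset.sum_congr rfl
      intro d hd
      rw [(hadm d hd).2.2.1, Nat.sub_zero]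
    rw [h3]
    have hLH' : (L : ℝ) ≤ H := by exact_mod_cast hLH
    calc ∑ d ∈ Adm k H L lo, rat (φ d).1 ^ A' ≤ ∑ b ∈ B, rat b.1 ^ A' := h1
      _ = (L : ℝ) ^ (k + 1) * ∑ u ∈ Icc 1 H, rat u ^ A' := h2
      _ ≤ (L : ℝ) ^ (k + 1) * (C * H) := mul_le_mul_of_nonneg_left (hmom H) (by positivity)
      _ = C * H * L * (L : ℝ) ^ k := by ring
      _ ≤ C * H * H * (L : ℝ) ^ k := by gcongr
      _ = _ := by ring

lemma prod_le_sum_pow {ι : Type} (Q : Finset ι) (r : ι → ℝ) (hr : ∀ q ∈ Q, 1 ≤ r q)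
    (hQ : Q.Nonempty) : ∏ q ∈ Q, r q ≤ ∑ q ∈ Q, r q ^ (#Q) := by
  obtain ⟨m, hm, hmax⟩ := Finset.exists_max_image Q r hQ
  calc ∏ q ∈ Q, r q ≤ ∏ _q ∈ Q, r m :=
        Finset.prod_le_prod (fun q hq => by linarith [hr q hq]) (fun q hq => hmax q hq)
    _ = r m ^ (#Q) := by rw [Finset.prod_const]
    _ ≤ ∑ q ∈ Q, r q ^ (#Q) :=
        Finset.single_le_sum (f := fun q => r q ^ (#Q))
          (fun q hq => pow_nonneg (by linarith [hr q hq]) _) hm

/-- target 2: average over tuples `0 = d 0 < d 1 < ... < d (k+2)`, where `d 1 ≤ H` is free and every other `d j` lies in a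
short interval of length `L` determined by `d 1`. -/
theorem tuple_count (k : ℕ) :
    ∃ C > (0 : ℝ), ∃ x₀ : ℕ, ∀ x : ℕ, x₀ ≤ x → ∀ (H L : ℕ), 1 ≤ L → L ≤ H → ∀ lo : ℕ → Fin (k + 3) → ℤ,
      (#{w ∈ Icc 1 x ×ˢ Fintype.piFinset (fun _ : Fin (k + 3) => Icc 0 H) |
          StrictMono w.2 ∧ w.2 0 = 0 ∧
          (∀ j : Fin (k + 3), 2 ≤ (j : ℕ) → lo (w.2 1) j ≤ w.2 j ∧ (w.2 j : ℤ) < lo (w.2 1) j + L) ∧
          ∀ j, (w.1 + w.2 j).Prime} : ℝ) ≤
        C * x / (Real.log x) ^ (k + 3) * (H : ℝ) ^ 2 * (L : ℝ) ^ k := by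
  classical
  obtain ⟨C, hC, A, x₀, hb⟩ := tuple_bound (k + 3) (by omega)
  set Q : Finset (Fin (k + 3) × Fin (k + 3)) :=
    (univ : Finset (Fin (k + 3) × Fin (k + 3))).filter (fun q => q.1 < q.2) with hQ
  have hQne : Q.Nonempty := ⟨(0, 1), by rw [hQ, mem_filter]; exact ⟨mem_univ _, by
    rw [Fin.lt_def]; simp⟩⟩
  obtain ⟨C2, hC2, hmom⟩ := rat_moment (A * #Q)
  have hQpos : (0 : ℝ) < #Q := by exact_mod_cast hQne.card_pos
  refine ⟨C * (#Q * C2), by positivity, max x₀ 1, ?_⟩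
  intro x hx H L hL hLH lo
  have hx0 : x₀ ≤ x := le_trans (le_max_left _ _) hx
  have hx1 : 1 ≤ x := le_trans (le_max_right _ _) hx
  set W := (Icc 1 x ×ˢ Fintype.piFinset (fun _ : Fin (k + 3) => Icc 0 H)).filter (fun w =>
          StrictMono w.2 ∧ w.2 0 = 0 ∧
          (∀ j : Fin (k + 3), 2 ≤ (j : ℕ) → lo (w.2 1) j ≤ w.2 j ∧ (w.2 j : ℤ) < lo (w.2 1) j + L) ∧
          ∀ j, (w.1 + w.2 j).Prime) with hW
  have hmaps : ∀ w ∈ W, w.2 ∈ Adm k H L lo := by
    intro w hw
    obtain ⟨h1, h2, h3, h4, h5⟩ := mem_filter.mp hw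
    exact mem_filter.mpr ⟨(mem_product.mp h1).2, h2, h3, h4⟩
  have hcard : #W = ∑ d ∈ Adm k H L lo, #{w ∈ W | w.2 = d} :=
    Finset.card_eq_sum_card_fiberwise hmaps
  have hfib : ∀ d ∈ Adm k H L lo, #{w ∈ W | w.2 = d} ≤ #{n ∈ Icc 1 x | ∀ j, (n + d j).Prime} := by
    intro d _
    apply Finset.card_le_card_of_injOn (fun w => w.1)
    · intro w hw
      rw [mem_coe, mem_filter] at hw
      obtain ⟨h1, h2⟩ := hw
      obtain ⟨h3, _, _, _, h4⟩ := mem_filter.mp h1
      rw [mem_coe, mem_filter]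
      refine ⟨(mem_product.mp h3).1, ?_⟩
      rw [← h2]; exact h4
    · intro w hw w' hw' h
      rw [mem_coe, mem_filter] at hw hw'
      exact Prod.ext h (hw.2.trans hw'.2.symm)
  have hlog : 0 ≤ Real.log x := Real.log_natCast_nonneg x
  have hcoef : 0 ≤ C * x / (Real.log x) ^ (k + 3) := by positivity
  have hR : ∀ d ∈ Adm k H L lo, (∏ q ∈ (univ : Finset (Fin (k + 3) × Fin (k + 3))) with q.1 < q.2,
      rat (d q.2 - d q.1) ^ A) ≤ ∑ q ∈ Q, rat (d q.2 - d q.1) ^ (A * #Q) := by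
    intro d hd
    have hmono : StrictMono d := (mem_filter.mp hd).2.1
    rw [← hQ]
    refine (prod_le_sum_pow Q _ ?_ hQne).trans (le_of_eq ?_)
    · intro q hq
      have h1 := hmono (mem_filter.mp hq).2
      exact one_le_pow₀ (rat_ge_one (by omega))
    · apply Finset.sum_congr rfl
      intro q _
      rw [pow_mul]
  have hsum : ∑ d ∈ Adm k H L lo, ∑ q ∈ Q, rat (d q.2 - d q.1) ^ (A * #Q) ≤
      #Q * (C2 * (H : ℝ) ^ 2 * (L : ℝ) ^ k) := by
    rw [Finset.sum_comm]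
    calc _ ≤ ∑ _q ∈ Q, C2 * (H : ℝ) ^ 2 * (L : ℝ) ^ k :=
          Finset.sum_le_sum fun q hq => pair_sum k _ C2 hC2 hmom H L hL hLH lo q.1 q.2
            (mem_filter.mp hq).2
      _ = _ := by rw [Finset.sum_const, nsmul_eq_mul]
  calc (#W : ℝ) = ∑ d ∈ Adm k H L lo, (#{w ∈ W | w.2 = d} : ℝ) := by
        rw [hcard]; push_cast; rfl
    _ ≤ ∑ d ∈ Adm k H L lo, (C * x / (Real.log x) ^ (k + 3) *
          ∑ q ∈ Q, rat (d q.2 - d q.1) ^ (A * #Q)) := by
        apply Finset.sum_le_sum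
        intro d hd
        have h1 : (#{w ∈ W | w.2 = d} : ℝ) ≤ (#{n ∈ Icc 1 x | ∀ j, (n + d j).Prime} : ℝ) := by
          exact_mod_cast hfib d hd
        have h2 := hb x hx0 d (mem_filter.mp hd).2.1
        exact (h1.trans h2).trans (mul_le_mul_of_nonneg_left (hR d hd) hcoef)
    _ = C * x / (Real.log x) ^ (k + 3) *
          ∑ d ∈ Adm k H L lo, ∑ q ∈ Q, rat (d q.2 - d q.1) ^ (A * #Q) := by
        rw [Finset.mul_sum]
    _ ≤ C * x / (Real.log x) ^ (k + 3) * (#Q * (C2 * (H : ℝ) ^ 2 * (L : ℝ) ^ k)) :=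
        mul_le_mul_of_nonneg_left hsum hcoef
    _ = _ := by ring

end Pool.Agent.H646.TuplesM
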